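import Mathlib
import Pool.Agent.Helper61.LipDefs
import Pool.Agent.Helper61.LipGraph

/-!
An unbounded uniformly discrete metric space `M` whose Lipschitz space `Lip(M)` is almost square.

`M` is a disjoint union of finite graphs `G n` with girth and chromatic number larger than `n`
(with capped graph metrics); distinct pieces `n`, `m` are at distance `n + m + 2`.
-/

namespace Pool.Agent.Results.MP_fe8a5b_an.AsqLipschitz

open Pool.Agent.Helper61

section Glue

variable {N : ℕ → ℕ} (G : ∀ n, SimpleGraph (Fin (N n)))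

open Classical in
/-- The distance on the disjoint union. -/
noncomputable def sd : (Σ n, Fin (N n)) → (Σ n, Fin (N n)) → ℕ
  | ⟨n, x⟩, ⟨m, y⟩ =>
    if h : n = m then capDist (G m) (2 * (m + 1)) (h ▸ x) y else (n + 1) + (m + 1)

lemma sd_same (n : ℕ) (x y : Fin (N n)) :
    sd G ⟨n, x⟩ ⟨n, y⟩ = capDist (G n) (2 * (n + 1)) x y := by
  simp [sd]

lemma sd_ne {n m : ℕ} (h : n ≠ m) (x : Fin (N n)) (y : Fin (N m)) :
    sd G ⟨n, x⟩ ⟨m, y⟩ = (n + 1) + (m + 1) := by
  simp [sd, h]

lemma sd_self (p : Σ n, Fin (N n)) : sd G p p = 0 := by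
  obtain ⟨n, x⟩ := p
  rw [sd_same, capDist_self]

lemma sd_comm (p q : Σ n, Fin (N n)) : sd G p q = sd G q p := by
  obtain ⟨n, x⟩ := p
  obtain ⟨m, y⟩ := q
  by_cases h : n = m
  · subst h
    rw [sd_same, sd_same, capDist_comm]
  · rw [sd_ne G h, sd_ne G (Ne.symm h)]
    ring

lemma sd_triangle (p q r : Σ n, Fin (N n)) : sd G p r ≤ sd G p q + sd G q r := by
  obtain ⟨n, x⟩ := p
  obtain ⟨m, y⟩ := q
  obtain ⟨l, z⟩ := r
  by_cases h1 : n = m
  · subst h1
    by_cases h2 : n = l
    · subst h2
      simp only [sd_same]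
      exact capDist_triangle _ _ _ _ _
    · rw [sd_ne G h2, sd_ne G h2]
      omega
  · by_cases h2 : m = l
    · subst h2
      rw [sd_ne G h1, sd_ne G h1]
      omega
    · by_cases h3 : n = l
      · subst h3
        rw [sd_ne G h1, sd_ne G h2, sd_same]
        have := capDist_le (G n) (2 * (n + 1)) x z
        omega
      · rw [sd_ne G h1, sd_ne G h2, sd_ne G h3]
        omega

lemma sd_pos {p q : Σ n, Fin (N n)} (h : p ≠ q) : 1 ≤ sd G p q := by
  obtain ⟨n, x⟩ := p
  obtain ⟨m, y⟩ := q
  by_cases h1 : n = m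
  · subst h1
    rw [sd_same]
    apply capDist_pos _ _ (by omega)
    rintro rfl
    exact h rfl
  · rw [sd_ne G h1]
    omega

/-- The metric space. -/
noncomputable abbrev sdMetric : MetricSpace (Σ n, Fin (N n)) where
  dist p q := (sd G p q : ℝ)
  dist_self p := by simp [sd_self]
  dist_comm p q := by rw [sd_comm]
  dist_triangle p q r := by exact_mod_cast sd_triangle G p q r
  eq_of_dist_eq_zero := by
    intro p q h
    by_contra hne
    have h1 := sd_pos G hne
    have h2 : sd G p q = 0 := by exact_mod_cast h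
    omega

open Classical in
/-- Extension by zero of a function on one piece. -/
noncomputable def ext0 (n : ℕ) (b : Fin (N n) → ℝ) (p : Σ n, Fin (N n)) : ℝ :=
  if h : p.1 = n then b (h ▸ p.2) else 0

lemma ext0_same (n : ℕ) (b : Fin (N n) → ℝ) (z : Fin (N n)) : ext0 n b ⟨n, z⟩ = b z := by
  simp [ext0]

lemma ext0_ne {n m : ℕ} (h : m ≠ n) (b : Fin (N n) → ℝ) (z : Fin (N m)) :
    ext0 n b ⟨m, z⟩ = 0 := by
  simp [ext0, h]

end Glue

/-- There is an unbounded uniformly discrete metric space `M` such that `Lip(M)` is almost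
square (for every choice of the base point). -/
theorem result : ∃ (M : Type) (_ : MetricSpace M),
    (∃ δ : ℝ, 0 < δ ∧ ∀ x y : M, x ≠ y → δ ≤ dist x y) ∧
    ¬ Bornology.IsBounded (Set.univ : Set M) ∧
    ∀ o : M, IsASQ (Lip M o) := by
  have hEr := fun n : ℕ => exists_girth_chromatic n n
  choose N G hgirth hcol using hEr
  have hNpos : ∀ n, 0 < N n := by
    intro n
    by_contra h
    have h0 : N n = 0 := by omega
    apply hcol n
    have : IsEmpty (Fin (N n)) := by rw [h0]; infer_instance
    exact ⟨⟨fun v => isEmptyElim v, fun {v} => isEmptyElim v⟩⟩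
  refine ⟨Σ n, Fin (N n), sdMetric G, ⟨1, one_pos, ?_⟩, ?_, ?_⟩
  · intro x y hxy
    change (1 : ℝ) ≤ (sd G x y : ℝ)
    exact_mod_cast sd_pos G hxy
  · let _ := sdMetric G
    intro hb
    rw [Metric.isBounded_iff] at hb
    obtain ⟨C, hC⟩ := hb
    obtain ⟨n, hn⟩ := exists_nat_gt C
    have h1 := hC (Set.mem_univ (⟨0, ⟨0, hNpos 0⟩⟩ : Σ n, Fin (N n)))
      (Set.mem_univ (⟨n + 1, ⟨0, hNpos (n + 1)⟩⟩ : Σ n, Fin (N n)))
    change ((sd G _ _ : ℕ) : ℝ) ≤ C at h1
    rw [sd_ne G (by omega)] at h1
    push_cast at h1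
    linarith
  · let _ := sdMetric G
    intro o k x hx ε hε
    have hdist : ∀ p q : Σ n, Fin (N n), dist p q = (sd G p q : ℝ) := fun p q => rfl
    obtain ⟨K, hK⟩ := exists_nat_gt (1 / ε + 1)
    obtain ⟨j, hj⟩ := exists_nat_gt (1 / ε)
    set n := max (K ^ k) j with hn
    have hnε : 1 ≤ ε * (n : ℝ) := by
      have h1 : (j : ℝ) ≤ n := by exact_mod_cast le_max_right _ _
      have h2 : 1 / ε ≤ n := hj.le.trans h1
      rw [div_le_iff₀ hε] at h2
      linarith
    have hncol : ¬ (G n).Colorable (K ^ k) := fun h => hcol n (h.mono (le_max_left _ _))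
    have hfLip : ∀ i p q, |(x i).fn p - (x i).fn q| ≤ (sd G p q : ℝ) := by
      intro i p q
      have := (x i).le_norm p q
      rw [hx i, one_mul, hdist] at this
      exact this
    obtain ⟨u, v, huv, hflat⟩ := exists_flat_edge (G n) hε hK hncol
      (fun i z => (x i).fn ⟨n, z⟩) (by
        intro i a b hab
        refine (hfLip i ⟨n, a⟩ ⟨n, b⟩).trans ?_
        rw [sd_same]
        exact_mod_cast capDist_adj_le _ _ hab)
    set H := (G n).deleteEdges {s(u, v)} with hH
    set b : Fin (N n) → ℝ := bump H u ε with hb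
    have hb01 : ∀ z, 0 ≤ b z ∧ b z ≤ 1 := fun z =>
      ⟨bump_nonneg H u ε z, bump_le_one H u ε hε.le z⟩
    have hbu : b u = 1 := bump_self H u ε
    have hbv : b v = 0 := bump_removed ε huv (hgirth n) hnε
    set g : (Σ n, Fin (N n)) → ℝ := ext0 n b with hg
    have hg01 : ∀ p, 0 ≤ g p ∧ g p ≤ 1 := by
      rintro ⟨m, z⟩
      by_cases h : m = n
      · subst h
        rw [hg, ext0_same]
        exact hb01 z
      · rw [hg, ext0_ne h]
        exact ⟨le_rfl, zero_le_one⟩
    have habs : ∀ p q, |g p - g q| ≤ 1 := by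
      intro p q
      rw [abs_le]
      constructor <;> linarith [(hg01 p).1, (hg01 p).2, (hg01 q).1, (hg01 q).2]
    -- the key estimate
    have hkey : ∀ i p q, |(x i).fn p - (x i).fn q| + |g p - g q| ≤ (1 + ε) * (sd G p q : ℝ) := by
      intro i
      have hdiff : ∀ (m l : ℕ) (z : Fin (N m)) (w : Fin (N l)), m ≠ l →
          |(x i).fn ⟨m, z⟩ - (x i).fn ⟨l, w⟩| + |g ⟨m, z⟩ - g ⟨l, w⟩|
            ≤ (1 + ε) * (sd G ⟨m, z⟩ ⟨l, w⟩ : ℝ) := by
        intro m l z w hml
        have h1 := hfLip i ⟨m, z⟩ ⟨l, w⟩
        rw [add_mul, one_mul]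
        apply add_le_add h1
        rw [sd_ne G hml]
        push_cast
        by_cases hm : m = n
        · refine (habs _ _).trans ?_
          rw [hm]
          nlinarith [(Nat.cast_nonneg l : (0 : ℝ) ≤ l)]
        · by_cases hl : l = n
          · refine (habs _ _).trans ?_
            rw [hl]
            nlinarith [(Nat.cast_nonneg m : (0 : ℝ) ≤ m)]
          · rw [hg, ext0_ne hm, ext0_ne hl, sub_zero, abs_zero]
            positivity
      rintro ⟨m, z⟩ ⟨l, w⟩
      by_cases hml : m = l
      · subst hml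
        by_cases hm : m = n
        · subst hm
          rw [sd_same, hg, ext0_same, ext0_same]
          apply edgewise (G := G n) (C := 2 * (n + 1)) (f := fun z => (x i).fn ⟨n, z⟩) (g := b)
          · intro a c
            have := hfLip i ⟨n, a⟩ ⟨n, c⟩
            rw [sd_same] at this
            exact this
          · intro a c hac
            by_cases hedge : s(a, c) = s(u, v)
            · have h1 : |(x i).fn ⟨n, a⟩ - (x i).fn ⟨n, c⟩| ≤ ε := by
                rw [Sym2.eq_iff] at hedge
                rcases hedge with ⟨rfl, rfl⟩ | ⟨rfl, rfl⟩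
                · exact hflat i
                · rw [abs_sub_comm]; exact hflat i
              have h2 : |b a - b c| ≤ 1 := by
                rw [abs_le]
                constructor <;> linarith [(hb01 a).1, (hb01 a).2, (hb01 c).1, (hb01 c).2]
              linarith
            · have hadj : H.Adj a c := by
                rw [hH, SimpleGraph.deleteEdges_adj]
                exact ⟨hac, hedge⟩
              have h1 := bump_adj H u ε hε.le hadj
              have h2 := hfLip i ⟨n, a⟩ ⟨n, c⟩
              rw [sd_same] at h2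
              have h3 : ((capDist (G n) (2 * (n + 1)) a c : ℕ) : ℝ) ≤ 1 := by
                exact_mod_cast capDist_adj_le _ _ hac
              linarith
          · exact hb01
          · push_cast
            nlinarith
        · rw [hg, ext0_ne hm, ext0_ne hm, sub_zero, abs_zero, add_zero]
          refine (hfLip i _ _).trans ?_
          have : (0 : ℝ) ≤ (sd G ⟨m, z⟩ ⟨m, w⟩ : ℝ) := Nat.cast_nonneg _
          nlinarith
      · exact hdiff m l z w hml
    -- g is 1-Lipschitz
    have hgLip : ∀ p q, |g p - g q| ≤ (sd G p q : ℝ) := by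
      intro p q
      by_cases h : p = q
      · subst h; simp
      · refine (habs p q).trans ?_
        exact_mod_cast sd_pos G h
    let y : Lip (Σ n, Fin (N n)) o := ⟨fun p => g p - g o, ⟨1, by
      apply LipschitzWith.of_dist_le_mul
      intro p q
      rw [Real.dist_eq, hdist, NNReal.coe_one, one_mul]
      have := hgLip p q
      simpa using this⟩, by simp⟩
    have hyfn : ∀ p q, y.fn p - y.fn q = g p - g q := by
      intro p q
      change (g p - g o) - (g q - g o) = g p - g q
      ring
    refine ⟨y, ?_, ?_⟩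
    · apply le_antisymm
      · apply Lip.norm_le _ zero_le_one
        intro p q
        rw [hyfn, one_mul, hdist]
        exact hgLip p q
      · have h1 := y.le_norm ⟨n, u⟩ ⟨n, v⟩
        rw [hyfn, hdist, sd_same] at h1
        have h2 : g ⟨n, u⟩ - g ⟨n, v⟩ = 1 := by
          rw [hg, ext0_same, ext0_same, hbu, hbv, sub_zero]
        rw [h2, abs_one] at h1
        have h3 : ((capDist (G n) (2 * (n + 1)) u v : ℕ) : ℝ) ≤ 1 := by
          exact_mod_cast capDist_adj_le _ _ huv
        have h4 : 0 ≤ ‖y‖ := norm_nonneg y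
        nlinarith
    · intro i
      constructor
      · apply Lip.norm_le _ (by positivity)
        intro p q
        rw [Lip.fn_add, Lip.fn_add, hdist]
        have h1 : (x i).fn p + y.fn p - ((x i).fn q + y.fn q)
            = ((x i).fn p - (x i).fn q) + (g p - g q) := by
          rw [← hyfn]; ring
        rw [h1]
        exact (abs_add_le _ _).trans (hkey i p q)
      · apply Lip.norm_le _ (by positivity)
        intro p q
        rw [Lip.fn_sub, Lip.fn_sub, hdist]
        have h1 : (x i).fn p - y.fn p - ((x i).fn q - y.fn q)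
            = ((x i).fn p - (x i).fn q) - (g p - g q) := by
          rw [← hyfn]; ring
        rw [h1]
        exact (abs_sub _ _).trans (hkey i p q)

end Pool.Agent.Results.MP_fe8a5b_an.AsqLipschitz
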